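import Pool.Agent.W425.SI.Defs

set_option autoImplicit false

/-! Change of variables for functional equations. -/

namespace Pool.Agent.W578.SI

open MvPolynomial Pool.Agent.H628R4.TP

section
variable {σ τ : Type}

/-- conjugation of operators by an isomorphism of polynomial rings -/
noncomputable def cj (φ : MvPolynomial σ ℂ ≃ₐ[ℂ] MvPolynomial τ ℂ) :
    Module.End ℂ (MvPolynomial σ ℂ) ≃ₐ[ℂ] Module.End ℂ (MvPolynomial τ ℂ) :=
  φ.toLinearEquiv.conjAlgEquiv ℂ

theorem cj_def (φ : MvPolynomial σ ℂ ≃ₐ[ℂ] MvPolynomial τ ℂ) (Q : Module.End ℂ (MvPolynomial σ ℂ))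
    (g : MvPolynomial τ ℂ) : cj φ Q g = φ (Q (φ.symm g)) := rfl

theorem cj_apply (φ : MvPolynomial σ ℂ ≃ₐ[ℂ] MvPolynomial τ ℂ)
    (Q : Module.End ℂ (MvPolynomial σ ℂ)) (f : MvPolynomial σ ℂ) : cj φ Q (φ f) = φ (Q f) := by
  rw [cj_def, AlgEquiv.symm_apply_apply]

theorem cj_mem (φ : MvPolynomial σ ℂ ≃ₐ[ℂ] MvPolynomial τ ℂ)
    (hX : ∀ i, LinearMap.mulLeft ℂ (φ (X i)) ∈ weylS τ)
    (hD : ∀ i, cj φ ((pderiv i : Derivation ℂ (MvPolynomial σ ℂ)
        (MvPolynomial σ ℂ)) : MvPolynomial σ ℂ →ₗ[ℂ] MvPolynomial σ ℂ) ∈ weylS τ) :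
    ∀ Q ∈ weylS σ, cj φ Q ∈ weylS τ := by
  have h : weylS σ ≤ (weylS τ).comap ((cj φ : _ ≃ₐ[ℂ] _) : _ →ₐ[ℂ] _) := by
    rw [weylS, Algebra.adjoin_le_iff]
    rintro Q (⟨i, rfl⟩ | ⟨i, rfl⟩)
    · show cj φ (LinearMap.mulLeft ℂ (X i)) ∈ weylS τ
      have e : cj φ (LinearMap.mulLeft ℂ (X i)) = LinearMap.mulLeft ℂ (φ (X i)) := by
        apply LinearMap.ext
        intro g
        rw [cj_def, LinearMap.mulLeft_apply, LinearMap.mulLeft_apply, map_mul,
          AlgEquiv.apply_symm_apply]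
      rw [e]
      exact hX i
    · exact hD i
  intro Q hQ
  exact h hQ

theorem b_transfer (φ : MvPolynomial σ ℂ ≃ₐ[ℂ] MvPolynomial τ ℂ)
    (hφ : ∀ Q ∈ weylS σ, cj φ Q ∈ weylS τ) (c : ℂ) (hc : c ≠ 0) (f : MvPolynomial σ ℂ)
    (b : Polynomial ℂ) (h : IsBFunction f b) : IsBFunction (C c * φ f) b := by
  obtain ⟨P, hP⟩ := h
  let g : weylS σ → weylS τ := fun Q => c⁻¹ • ⟨cj φ Q, hφ Q Q.2⟩
  have hg0 : g 0 = 0 := by
    apply Subtype.ext
    show c⁻¹ • cj φ ((0 : weylS σ) : Module.End ℂ (MvPolynomial σ ℂ)) = 0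
    rw [ZeroMemClass.coe_zero, map_zero, smul_zero]
  refine ⟨P.mapRange g hg0, fun s => ?_⟩
  rw [Finsupp.sum_mapRange_index (by intro m; simp)]
  have h1 := congrArg φ (hP s)
  rw [map_mul, map_pow, Finsupp.sum, map_sum] at h1
  have hC : φ (C (b.eval (s : ℂ))) = C (b.eval (s : ℂ)) := φ.commutes _
  rw [hC] at h1
  have h2 : C (b.eval (s : ℂ)) * (C c * φ f) ^ s =
      (c ^ s) • (C (b.eval (s : ℂ)) * φ f ^ s) := by
    rw [mul_pow, ← C_pow, ← C_mul']
    ring
  rw [h2, h1, Finset.smul_sum, Finsupp.sum]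
  refine Finset.sum_congr rfl fun m _ => ?_
  have h3 : ((g (P m) : weylS τ) : Module.End ℂ (MvPolynomial τ ℂ)) =
      c⁻¹ • cj φ (P m : Module.End ℂ (MvPolynomial σ ℂ)) := rfl
  have h4 : (C c * φ f) ^ (s + 1) = (c ^ (s + 1)) • φ (f ^ (s + 1)) := by
    rw [mul_pow, ← C_pow, C_mul', map_pow]
  rw [h3, h4]
  simp only [LinearMap.smul_apply, map_smul, cj_apply, smul_smul]
  congr 1
  rw [pow_succ]
  field_simp

end

/-- rescaling of the variables -/
noncomputable def sc {σ : Type} (t : σ → ℂ) (ht : ∀ i, t i ≠ 0) :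
    MvPolynomial σ ℂ ≃ₐ[ℂ] MvPolynomial σ ℂ :=
  AlgEquiv.ofAlgHom (aeval (fun i => C (t i) * X i)) (aeval (fun i => C (t i)⁻¹ * X i))
    (by
      apply MvPolynomial.algHom_ext
      intro i
      simp only [AlgHom.comp_apply, aeval_X, map_mul, AlgHom.id_apply]
      rw [show (aeval fun i => C (t i) * X i : MvPolynomial σ ℂ →ₐ[ℂ] MvPolynomial σ ℂ)
        (C (t i)⁻¹) = C (t i)⁻¹ from AlgHom.commutes _ _]
      rw [← mul_assoc, ← C_mul, inv_mul_cancel₀ (ht i), C_1, one_mul])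
    (by
      apply MvPolynomial.algHom_ext
      intro i
      simp only [AlgHom.comp_apply, aeval_X, map_mul, AlgHom.id_apply]
      rw [show (aeval fun i => C (t i)⁻¹ * X i : MvPolynomial σ ℂ →ₐ[ℂ] MvPolynomial σ ℂ)
        (C (t i)) = C (t i) from AlgHom.commutes _ _]
      rw [← mul_assoc, ← C_mul, mul_inv_cancel₀ (ht i), C_1, one_mul])

theorem sc_apply {σ : Type} (t : σ → ℂ) (ht : ∀ i, t i ≠ 0) (p : MvPolynomial σ ℂ) :
    sc t ht p = aeval (fun i => C (t i) * X i) p := rfl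

theorem pderiv_sc {σ : Type} (t : σ → ℂ) (ht : ∀ i, t i ≠ 0) (i : σ) (p : MvPolynomial σ ℂ) :
    pderiv i (sc t ht p) = t i • sc t ht (pderiv i p) := by
  classical
  induction p using MvPolynomial.induction_on with
  | C a =>
    have : sc t ht (C a) = C a := (sc t ht).commutes a
    rw [this, pderiv_C, map_zero, smul_zero]
  | add p q hp hq => rw [map_add, map_add, map_add, map_add, hp, hq, smul_add]
  | mul_X p j hp =>
    have hX : sc t ht (X j) = C (t j) * X j := by rw [sc_apply, aeval_X]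
    rw [map_mul, Derivation.leibniz, Derivation.leibniz, hp, hX, Derivation.leibniz, pderiv_C]
    by_cases hij : i = j
    · subst hij
      rw [pderiv_X_self]
      simp only [smul_eq_mul, mul_zero, add_zero, mul_one, map_add, map_mul, hX,
        ← C_mul']
      ring
    · rw [pderiv_X_of_ne (Ne.symm hij)]
      simp only [smul_eq_mul, mul_zero, add_zero, mul_one, map_add, map_mul, hX,
        ← C_mul', map_zero]
      ring

theorem sc_mem {σ : Type} (t : σ → ℂ) (ht : ∀ i, t i ≠ 0) :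
    ∀ Q ∈ weylS σ, cj (sc t ht) Q ∈ weylS σ := by
  refine cj_mem _ (fun i => ?_) (fun i => ?_)
  · have e : LinearMap.mulLeft ℂ (sc t ht (X i)) = t i • LinearMap.mulLeft ℂ (X i) := by
      apply LinearMap.ext
      intro g
      rw [sc_apply, aeval_X, LinearMap.smul_apply, LinearMap.mulLeft_apply,
        LinearMap.mulLeft_apply, ← C_mul', mul_assoc]
    rw [e]
    exact (weylS σ).smul_mem (Algebra.subset_adjoin (Or.inl ⟨i, rfl⟩)) _
  · have e : cj (sc t ht) ((pderiv i : Derivation ℂ (MvPolynomial σ ℂ)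
        (MvPolynomial σ ℂ)) : MvPolynomial σ ℂ →ₗ[ℂ] MvPolynomial σ ℂ) =
        (t i)⁻¹ • ((pderiv i : Derivation ℂ (MvPolynomial σ ℂ)
        (MvPolynomial σ ℂ)) : MvPolynomial σ ℂ →ₗ[ℂ] MvPolynomial σ ℂ) := by
      apply LinearMap.ext
      intro g
      obtain ⟨h, rfl⟩ := (sc t ht).surjective g
      rw [cj_apply, LinearMap.smul_apply]
      show sc t ht (pderiv i h) = (t i)⁻¹ • pderiv i (sc t ht h)
      rw [pderiv_sc, smul_smul, inv_mul_cancel₀ (ht i), one_smul]
    rw [e]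
    exact (weylS σ).smul_mem (Algebra.subset_adjoin (Or.inr ⟨i, rfl⟩)) _

theorem rename_mem {σ τ : Type} (e : σ ≃ τ) :
    ∀ Q ∈ weylS σ, cj (renameEquiv ℂ e) Q ∈ weylS τ := by
  refine cj_mem _ (fun i => ?_) (fun i => ?_)
  · rw [renameEquiv_apply, rename_X]
    exact Algebra.subset_adjoin (Or.inl ⟨e i, rfl⟩)
  · have h : cj (renameEquiv ℂ e) ((pderiv i : Derivation ℂ (MvPolynomial σ ℂ)
        (MvPolynomial σ ℂ)) : MvPolynomial σ ℂ →ₗ[ℂ] MvPolynomial σ ℂ) =
        ((pderiv (e i) : Derivation ℂ (MvPolynomial τ ℂ)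
        (MvPolynomial τ ℂ)) : MvPolynomial τ ℂ →ₗ[ℂ] MvPolynomial τ ℂ) := by
      apply LinearMap.ext
      intro g
      obtain ⟨h, rfl⟩ := (renameEquiv ℂ e).surjective g
      rw [cj_apply]
      show renameEquiv ℂ e (pderiv i h) = pderiv (e i) (renameEquiv ℂ e h)
      rw [renameEquiv_apply, renameEquiv_apply, pderiv_rename e.injective]
    rw [h]
    exact Algebra.subset_adjoin (Or.inr ⟨e i, rfl⟩)

/-- rescaling of power series and polynomials -/
theorem rescale_coe {σ : Type} (t : σ → ℂ) (ht : ∀ i, t i ≠ 0) (p : MvPolynomial σ ℂ) :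
    MvPowerSeries.rescale t (p : MvPowerSeries σ ℂ) = ((sc t ht p : MvPolynomial σ ℂ) :
      MvPowerSeries σ ℂ) := by
  have h : (MvPowerSeries.rescale t).comp (MvPolynomial.coeToMvPowerSeries.ringHom) =
      (MvPolynomial.coeToMvPowerSeries.ringHom).comp ((sc t ht : _ →+* _)) := by
    apply MvPolynomial.ringHom_ext
    · intro r
      have h1 : sc t ht (C r) = C r := (sc t ht).commutes r
      simp only [RingHom.comp_apply, MvPolynomial.coeToMvPowerSeries.ringHom_apply,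
        RingHom.coe_coe]
      rw [h1]
      classical
      ext n
      rw [MvPowerSeries.coeff_rescale, coeff_coe, coeff_C]
      split_ifs with hn
      · rw [← hn]; simp
      · simp
    · intro i
      simp only [RingHom.comp_apply, MvPolynomial.coeToMvPowerSeries.ringHom_apply,
        RingHom.coe_coe]
      rw [sc_apply, aeval_X]
      classical
      ext n
      rw [MvPowerSeries.coeff_rescale, coeff_coe, coeff_coe, coeff_C_mul, coeff_X']
      split_ifs with hn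
      · rw [← hn]; simp
      · simp
  have h2 := congrArg (fun F => F p) h
  simpa using h2

/-- Part I2 -/
theorem taskI2 : Pool.Agent.W425.SI.TaskI2 := by
  refine ⟨?_, ?_, ?_⟩
  · intro σ τ e f b h
    have := b_transfer (renameEquiv ℂ e) (rename_mem e) 1 one_ne_zero f b h
    rwa [C_1, one_mul, renameEquiv_apply] at this
  · intro σ _ f b c t hc ht h
    exact b_transfer (sc t ht) (sc_mem t ht) c hc f b h
  · intro σ _ f b c t hc ht h
    obtain ⟨L, m, a, Q, h⟩ := h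
    refine ⟨L, m, fun i => MvPowerSeries.rescale t (a i),
      fun i => c⁻¹ • ⟨cj (sc t ht) (Q i), sc_mem t ht _ (Q i).2⟩, fun s => ?_⟩
    have h1 := congrArg (MvPowerSeries.rescale t) (h s)
    rw [map_mul, map_sum, rescale_coe t ht] at h1
    have hC : ∀ z : ℂ, MvPowerSeries.rescale t (MvPowerSeries.C z) = MvPowerSeries.C z := by
      intro z
      classical
      ext n
      rw [MvPowerSeries.coeff_rescale, MvPowerSeries.coeff_C]
      split_ifs with hn
      · rw [hn]; simp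
      · simp
    rw [hC] at h1
    rw [← sc_apply t ht]
    have h2 : (((C c * sc t ht f) ^ s : MvPolynomial σ ℂ) : MvPowerSeries σ ℂ) =
        MvPowerSeries.C (c ^ s) * ((sc t ht (f ^ s) : MvPolynomial σ ℂ) : MvPowerSeries σ ℂ) := by
      rw [mul_pow, ← C_pow, coe_mul, coe_C, ← map_pow (sc t ht)]
    rw [h2, mul_left_comm, h1, Finset.mul_sum]
    refine Finset.sum_congr rfl fun i _ => ?_
    rw [map_mul, map_mul, hC, rescale_coe t ht]
    have h3 : (((c⁻¹ • (⟨cj (sc t ht) (Q i), sc_mem t ht _ (Q i).2⟩ : weylS σ) : weylS σ) :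
        Module.End ℂ (MvPolynomial σ ℂ))) = c⁻¹ • cj (sc t ht) (Q i) := rfl
    have h4 : (C c * sc t ht f) ^ (s + 1) = (c ^ (s + 1)) • sc t ht (f ^ (s + 1)) := by
      rw [mul_pow, ← C_pow, C_mul', map_pow]
    rw [h3, h4, LinearMap.smul_apply, map_smul, cj_apply, smul_smul]
    have h5 : c⁻¹ * c ^ (s + 1) = c ^ s := by
      rw [pow_succ]
      field_simp
    rw [h5, ← C_mul', coe_mul, coe_C]
    ring

end Pool.Agent.W578.SI
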